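import Mathlib
import Pool.Agent.H.MP_24cde2_gt.Main
set_option autoImplicit false
namespace Pool.Agent.Results.MP_24cde2_gt.Main
open Set Topology
universe u

def IsFreeTVS {X V : Type u} [TopologicalSpace X] [AddCommGroup V] [Module ℝ V]
    [TopologicalSpace V] (i : X → V) : Prop :=
  IsTopologicalAddGroup V ∧ ContinuousSMul ℝ V ∧ Continuous i ∧
    ∀ (E : Type u) [AddCommGroup E] [Module ℝ E] [TopologicalSpace E] [IsTopologicalAddGroup E]
      [ContinuousSMul ℝ E] (f : X → E), Continuous f → ∃! g : V →L[ℝ] E, ∀ x, g (i x) = f x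

def sp {X V : Type u} [AddCommGroup V] [Module ℝ V] (i : X → V) (n : ℕ) : Set V :=
  {v | ∃ (l : Fin n → ℝ) (x : Fin n → X), (∀ j, |l j| ≤ n) ∧ v = ∑ j, l j • i (x j)}

theorem result {X V : Type u} [TopologicalSpace X] [TopologicalSpace.MetrizableSpace X]
    [AddCommGroup V] [Module ℝ V] [TopologicalSpace V] (i : X → V) (hi : IsFreeTVS i)
    (h : CompactlyCoherentSpace (sp i 2)) : CompactlyCoherentSpace (sp i 4) := by
  letI := TopologicalSpace.metrizableSpaceMetric X
  have := H.MP_24cde2_gt.Free.second hi Subset.rfl h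
  have := H.MP_24cde2_gt.Free.lc hi Subset.rfl h
  exact H.MP_24cde2_gt.Free.kspace hi 4

end Pool.Agent.Results.MP_24cde2_gt.Main
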